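import Mathlib

/-!
# Cells: the counting lemma (core, without the spec)
-/

set_option autoImplicit false

namespace Pool.Agent.T9h52.TF

/-- The odd logarithm. -/
noncomputable def ph (s : ℝ) : ℝ := if 0 ≤ s then Real.log (1 + s) else -Real.log (1 - s)

theorem ph_mono {s s' : ℝ} (h : s ≤ s') : ph s ≤ ph s' := by
  unfold ph
  by_cases h0 : 0 ≤ s
  · rw [if_pos h0, if_pos (h0.trans h)]
    exact Real.log_le_log (by linarith) (by linarith)
  · push Not at h0
    rw [if_neg (not_le.2 h0)]
    by_cases h1 : 0 ≤ s'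
    · rw [if_pos h1]
      have a1 : 0 ≤ Real.log (1 - s) := Real.log_nonneg (by linarith)
      have a2 : 0 ≤ Real.log (1 + s') := Real.log_nonneg (by linarith)
      linarith
    · push Not at h1
      rw [if_neg (not_le.2 h1)]
      have : Real.log (1 - s') ≤ Real.log (1 - s) := Real.log_le_log (by linarith) (by linarith)
      linarith

theorem ph_abs {s T : ℝ} (h : |s| ≤ T) : |ph s| ≤ Real.log (1 + T) := by
  unfold ph
  obtain ⟨h1, h2⟩ := abs_le.1 h
  by_cases h0 : 0 ≤ s
  · rw [if_pos h0, abs_of_nonneg (Real.log_nonneg (by linarith))]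
    exact Real.log_le_log (by linarith) (by linarith)
  · push Not at h0
    rw [if_neg (not_le.2 h0), abs_neg, abs_of_nonneg (Real.log_nonneg (by linarith))]
    exact Real.log_le_log (by linarith) (by linarith)

theorem log98 : (1 : ℝ) / 9 ≤ Real.log (9 / 8) := by
  have := Real.one_sub_inv_le_log_of_pos (show (0 : ℝ) < 9 / 8 by norm_num)
  have h : 1 - ((9 : ℝ) / 8)⁻¹ = 1 / 9 := by norm_num
  linarith

theorem ph_key {s s' : ℝ} (h : s ≤ s') (h9 : ph s' - ph s ≤ 1 / 9) : s' - s ≤ (1 + |s|) / 8 := by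
  have hl := log98
  unfold ph at h9
  by_cases h0 : 0 ≤ s
  · rw [if_pos h0, if_pos (h0.trans h)] at h9
    rw [abs_of_nonneg h0]
    have h1 : Real.log (1 + s') ≤ Real.log (9 / 8 * (1 + s)) := by
      rw [Real.log_mul (by norm_num) (by linarith)]
      linarith
    have h2 := (Real.log_le_log_iff (by linarith) (by nlinarith)).1 h1
    linarith
  · push Not at h0
    rw [if_neg (not_le.2 h0)] at h9
    rw [abs_of_neg h0]
    by_cases h1 : 0 ≤ s'
    · rw [if_pos h1] at h9
      have h2 : Real.log ((1 + s') * (1 - s)) ≤ Real.log (9 / 8) := by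
        rw [Real.log_mul (by linarith) (by linarith)]
        linarith
      have h3 := (Real.log_le_log_iff (by nlinarith) (by norm_num)).1 h2
      nlinarith
    · push Not at h1
      rw [if_neg (not_le.2 h1)] at h9
      have h2 : Real.log (1 - s) ≤ Real.log (9 / 8 * (1 - s')) := by
        rw [Real.log_mul (by norm_num) (by linarith)]
        linarith
      have h3 := (Real.log_le_log_iff (by linarith) (by nlinarith)).1 h2
      linarith

theorem fib (s : Finset ℕ) (n : ℕ) (h : ∀ a ∈ s, ∀ b ∈ s, a ≤ b → b - a ≤ n) :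
    s.card ≤ n + 1 := by
  rcases s.eq_empty_or_nonempty with rfl | hs
  · simp
  · have hsub : s ⊆ Finset.Icc (s.min' hs) (s.min' hs + n) := by
      intro b hb
      have h1 := s.min'_le b hb
      have h2 := h _ (s.min'_mem hs) b hb h1
      rw [Finset.mem_Icc]
      omega
    have h3 := Finset.card_le_card hsub
    rw [Nat.card_Icc] at h3
    omega

theorem cell_core (B : Finset ℝ) (η Y : ℝ) (N n : ℕ) (y : ℕ → ℝ) (hη : 0 < η) (hY : 0 < Y)
    (hB : ∀ b ∈ B, |b| ≤ Y) (hy : StrictMono y) (hyY : ∀ l, l ≤ N → |y l| ≤ Y)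
    (hn : ∀ l l', l ≤ l' → l' ≤ N → (∀ b ∈ B, y l' - y l ≤ (η + |y l - b|) / 8) → l' - l ≤ n) :
    (N : ℝ) + 1 ≤ (18 * B.card * Real.log (1 + 2 * Y / η) + 1) * (n + 1) := by
  classical
  set L : ℝ := Real.log (1 + 2 * Y / η) with hL
  have hL0 : 0 ≤ L := Real.log_nonneg (by have : 0 ≤ 2 * Y / η := by positivity
                                          linarith)
  set K : ℝ := B.card * L with hK
  have hK0 : 0 ≤ K := by positivity
  let ψ : ℝ → ℝ := fun x => ∑ b ∈ B, ph ((x - b) / η)
  have hψ : ∀ l, l ≤ N → |ψ (y l)| ≤ K := by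
    intro l hl
    calc |ψ (y l)| ≤ ∑ b ∈ B, |ph ((y l - b) / η)| := Finset.abs_sum_le_sum_abs _ _
      _ ≤ ∑ b ∈ B, L := by
          refine Finset.sum_le_sum fun b hb => ph_abs ?_
          rw [abs_div, abs_of_pos hη]
          gcongr
          calc |y l - b| ≤ |y l| + |b| := abs_sub _ _
            _ ≤ 2 * Y := by linarith [hyY l hl, hB b hb]
      _ = K := by rw [Finset.sum_const, nsmul_eq_mul]
  have hfl : ∀ l, l ≤ N → 0 ≤ 9 * (ψ (y l) + K) ∧ 9 * (ψ (y l) + K) ≤ 18 * K := by
    intro l hl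
    obtain ⟨h1, h2⟩ := abs_le.1 (hψ l hl)
    constructor <;> linarith
  let f : ℕ → ℕ := fun l => ⌊9 * (ψ (y l) + K)⌋₊
  have hmaps : ∀ l ∈ Finset.range (N + 1), f l ∈ Finset.range (⌊18 * K⌋₊ + 1) := by
    intro l hl
    have hl' : l ≤ N := by simpa [Nat.lt_succ_iff] using hl
    rw [Finset.mem_range, Nat.lt_succ_iff]
    exact Nat.floor_le_floor (hfl l hl').2
  have hfib : ∀ c ∈ Finset.range (⌊18 * K⌋₊ + 1),
      ((Finset.range (N + 1)).filter fun l => f l = c).card ≤ n + 1 := by
    intro c _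
    apply fib
    intro a ha b hb hab
    rw [Finset.mem_filter, Finset.mem_range] at ha hb
    have ha' : a ≤ N := by omega
    have hb' : b ≤ N := by omega
    refine hn a b hab hb' fun x hx => ?_
    have hyab : y a ≤ y b := hy.monotone hab
    have hsum : ψ (y b) - ψ (y a) ≤ 1 / 9 := by
      have e1 : f a = f b := ha.2.trans hb.2.symm
      have e2 : 9 * (ψ (y b) + K) < (f b : ℝ) + 1 := Nat.lt_floor_add_one _
      have e3 : (f a : ℝ) ≤ 9 * (ψ (y a) + K) := Nat.floor_le (hfl a ha').1
      rw [e1] at e3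
      linarith
    have hone : ph ((y b - x) / η) - ph ((y a - x) / η) ≤ 1 / 9 := by
      have : ph ((y b - x) / η) - ph ((y a - x) / η) ≤
          ∑ z ∈ B, (ph ((y b - z) / η) - ph ((y a - z) / η)) := by
        apply Finset.single_le_sum (f := fun z => ph ((y b - z) / η) - ph ((y a - z) / η)) _ hx
        intro z _
        have : ph ((y a - z) / η) ≤ ph ((y b - z) / η) := ph_mono (by gcongr)
        simpa using this
      rw [Finset.sum_sub_distrib] at this
      exact this.trans hsum
    have hk := ph_key (s := (y a - x) / η) (s' := (y b - x) / η) (by gcongr) hone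
    rw [abs_div, abs_of_pos hη] at hk
    have e4 : (y b - x) / η - (y a - x) / η = (y b - y a) / η := by ring
    rw [e4, div_le_iff₀ hη] at hk
    have e5 : (1 + |y a - x| / η) / 8 * η = (η + |y a - x|) / 8 := by
      field_simp
    rw [e5] at hk
    exact hk
  have hcard := Finset.card_le_mul_card_image_of_maps_to hmaps (n + 1) hfib
  rw [Finset.card_range, Finset.card_range] at hcard
  have h1 : ((N + 1 : ℕ) : ℝ) ≤ ((n + 1 : ℕ) : ℝ) * ((⌊18 * K⌋₊ + 1 : ℕ) : ℝ) := by
    exact_mod_cast hcard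
  have h2 : (⌊18 * K⌋₊ : ℝ) ≤ 18 * K := Nat.floor_le (by positivity)
  have h3 : (0 : ℝ) ≤ (n : ℝ) + 1 := by positivity
  have e6 : 18 * (B.card : ℝ) * L = 18 * K := by rw [hK]; ring
  rw [e6]
  push_cast at h1
  nlinarith

end Pool.Agent.T9h52.TF
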