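import Pool.Agent.T9h20.TF.Spec
import Pool.Agent.T9h52.TF.CellCore

/-!
# The piece (P) of `Pool.Agent.T9h20.TF.Spec`
-/

set_option autoImplicit false

namespace Pool.Agent.T9h52.TF

theorem sCell : Pool.Agent.T9h20.TF.SCell :=
  fun B η Y N n y hη hY hB hy hyY hn => cell_core B η Y N n y hη hY hB hy hyY hn

end Pool.Agent.T9h52.TF
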